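import Mathlib
import Pool.Agent.Helper65.Inj.JDefs

namespace Pool.Agent.Helper83.Inj

open Classical Pool.Agent.Helper65.Inj Pool.Agent.Helper65.Inj.Cub

set_option linter.unusedSectionVars false
set_option linter.unusedVariables false

theorem rc_symm {A B : Type} {H : Cub A B} {J : Finset A} {a b : A} (h : H.Rc J a b) : H.Rc J b a := by
  induction h with
  | refl => exact Relation.ReflTransGen.refl
  | tail _ h2 ih =>
    obtain ⟨c, hc⟩ := h2
    exact Relation.ReflTransGen.head ⟨c, hc.symm⟩ ih

theorem rc_of_Q {A B : Type} {H : Cub A B} {J : Finset A} {a b : A} {r : B} (h : H.Q J r a b) : H.Rc J a b :=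
  Relation.ReflTransGen.single ⟨r, h⟩

theorem st_Fr (hOR : ST_OR) : ST_Fr := by
  intro A B _ _ H J v w j k T b c hO hO' hwJ hX hjw hntw a haJ hna
  have hne := hX.ne hO
  have hnJ := hX.nJ
  have hall := @XD.all _ _ _ _ _ _ _ _ _ _ _ _ hX
  have hjk : H.Rc J j k := hOR A B H J j k hO hX.hj.2.1 fun s hs => hX.opp hO hs
  have hwj := rc_symm hjw
  have hkj := rc_symm hjk
  -- the traces on the blocks of untouched points
  have tr : ∀ a, a ∈ J → ¬ H.Rc J a j → ∀ r, a ∈ H.pt r → ∀ u ∈ H.pt r, (u ∈ J ↔ u ∈ (J \ {w}) ∪ {v}) := by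
    intro a haJ hna r har u hur
    have haw : a ≠ w := by
      rintro rfl
      exact hna hwj
    have huv : u ≠ v := by
      rintro rfl
      rcases hall hur with h | h | h
      · subst h
        exact hX.hT a har haJ
      · subst h
        have := hX.hj.2.2 a har haJ
        subst this
        exact hna Relation.ReflTransGen.refl
      · subst h
        have := hX.hk.2.2 a har haJ
        subst this
        exact hna hkj
    have huw : u ≠ w := by
      rintro rfl
      rcases tr_cases_mem hur hwJ with h | ⟨x, h⟩ | h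
      · exact haw (h.2.2 a har haJ)
      · have hax : a = x := by
          rcases h.2.2.2.2.2 a har haJ with h' | h'
          · exact absurd h' haw
          · exact h'
        subst hax
        exact hna ((rc_of_Q h.symm).trans hwj)
      · exact hntw r (mem_bl.2 hur) h
    simp only [Finset.mem_union, Finset.mem_sdiff, Finset.mem_singleton, huv, huw, not_false_eq_true, and_true,
      or_false]
  have hQ : ∀ x, x ∈ J → ¬ H.Rc J x j → ∀ r y, H.Q J r x y ↔ H.Q ((J \ {w}) ∪ {v}) r x y := by
    intro x hxJ hxj r y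
    unfold Q
    constructor
    · rintro ⟨h1, h2, h3, h4, h5, h6⟩
      have t := tr x hxJ hxj r h2
      exact ⟨h1, h2, h3, (t x h2).1 h4, (t y h3).1 h5, fun z hz hz' => h6 z hz ((t z hz).2 hz')⟩
    · rintro ⟨h1, h2, h3, h4, h5, h6⟩
      have t := tr x hxJ hxj r h2
      exact ⟨h1, h2, h3, (t x h2).2 h4, (t y h3).2 h5, fun z hz hz' => h6 z hz ((t z hz).1 hz')⟩
  -- points reachable from `a`
  have hZ : ∀ u, H.Rc J a u → u ∈ J ∧ ¬ H.Rc J u j := by
    intro u hu
    refine ⟨?_, fun h => hna (hu.trans h)⟩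
    induction hu with
    | refl => exact haJ
    | tail _ h2 _ =>
      obtain ⟨r, hr⟩ := h2
      exact hr.2.2.2.2.1
  refine ⟨?_, tr a haJ hna, fun u => ⟨fun h => ?_, fun h => ?_⟩⟩
  · obtain ⟨r, -, -, -, -, -, har, -⟩ := ex_bl (H := H) a
    exact (tr a haJ hna r har a har).1 haJ
  · induction h with
    | refl => exact Relation.ReflTransGen.refl
    | @tail x y h1 h2 ih =>
      obtain ⟨r, hr⟩ := h2
      obtain ⟨z1, z2⟩ := hZ x h1
      exact ih.tail ⟨r, (hQ x z1 z2 r y).1 hr⟩
  · induction h with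
    | refl => exact Relation.ReflTransGen.refl
    | @tail x y h1 h2 ih =>
      obtain ⟨r, hr⟩ := h2
      obtain ⟨z1, z2⟩ := hZ x ih
      exact ih.tail ⟨r, (hQ x z1 z2 r y).2 hr⟩

end Pool.Agent.Helper83.Inj
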