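import Mathlib
import Pool.Agent.Helper65.Inj.JDefs

namespace Pool.Agent.Helper83.Inj

open Classical Pool.Agent.Helper65.Inj Pool.Agent.Helper65.Inj.Cub

set_option linter.unusedSectionVars false
set_option linter.unusedVariables false

theorem st_Rot1 : ST_Rot1 := by
  intro A B _ _ H J v j k p T b c D F hO hX hL
  have hnt := hX.nt1 hO
  have hnt2 := hX.nt2 hO
  have hne := hX.ne hO
  have hnJ := hX.nJ
  have hvF := hX.notF hO hL
  have hall := @XD.all _ _ _ _ _ _ _ _ _ _ _ _ hX
  have hLall := @Lf.all _ _ _ _ _ _ _ _ _ _ _ hL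
  have hLbD := hL.bD
  have hLFD := hL.FD
  have hTb := hX.Tb
  have hTc := hX.Tc
  obtain ⟨⟨s, hs⟩, hI⟩ := hO.1
  have hopp := hX.opp hO hs
  obtain ⟨hvT, hvb, hvc, hbc, hUT, hPj, hPk⟩ := hX
  obtain ⟨-, hLF, hLD, hbF⟩ := hL
  have hEx : Ex H J {v} {j} {F} {T} (fun a => if a = v then s j else s a) := by
    refine ⟨by simpa using hnJ, by simp [hPj.2.1], ?_, ?_, ?_, ?_⟩
    · unfold U P Q at *; grind
    · exact hc_s hs (by simpa using hnt) (by simpa using hnJ) (by grind)
    · unfold U P Q at *; grind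
    · unfold U at *; grind
  obtain ⟨h0, h1, h2, h3, h4⟩ := hEx.res hI
  simp only [Finset.card_singleton] at h3 h4
  refine ⟨hO.opt h1 (by omega) (n3_le h2) (by omega), ?_⟩
  constructor
  · exact hLF.1
  · exact hPj.1
  · exact hLD.2.1
  · exact hLbD
  · unfold U P Q at *; grind
  · unfold U P Q at *; grind
  · unfold U P Q at *; grind

theorem st_Rot2 : ST_Rot2 := by
  intro A B _ _ H J v j k p T b c D F hO hX hL hLP
  have hnt := hX.nt1 hO
  have hnt2 := hX.nt2 hO
  have hne := hX.ne hO
  have hnJ := hX.nJ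
  have hvF := hX.notF hO hL
  have hall := @XD.all _ _ _ _ _ _ _ _ _ _ _ _ hX
  have hLall := @Lf.all _ _ _ _ _ _ _ _ _ _ _ hL
  have hLbD := hL.bD
  have hLFD := hL.FD
  have hTb := hX.Tb
  have hTc := hX.Tc
  obtain ⟨⟨s, hs⟩, hI⟩ := hO.1
  have hoppA : ∀ s, H.Val J s → s j ≠ s k := fun s hs => hX.opp hO hs
  have hopp := hoppA s hs
  obtain ⟨hvT, hvb, hvc, hbc, hUT, hPj, hPk⟩ := hX
  obtain ⟨-, hLF, hLD, hbF⟩ := hL
  have hpJ : p ∈ J := hLD.2.2.2.2.1
  have hntp : H.nt J p := hLD.symm.nt hI
  have hpk : p ≠ k := by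
    rintro rfl
    exact hLP D ⟨hLD.2.1, hLD.2.2.1⟩
  have hjp : j ≠ p := hLD.1
  obtain ⟨X1, X2, h1, h2, h3, hX1, hX2, hpall⟩ := ex_bl1 hLD.2.2.1
  -- the second pair block
  obtain ⟨D', G, q, hDD', hDG, hD'G, hQ', hG, hpall'⟩ : ∃ D' G q, D ≠ D' ∧ D ≠ G ∧ D' ≠ G ∧ H.Q J D' p q ∧ H.P J G p ∧
      ∀ r, p ∈ H.pt r → r = D ∨ r = D' ∨ r = G := by
    rcases tr_cases_mem hX1 hpJ with a1 | ⟨q, a1⟩ | a1
    · rcases tr_cases_mem hX2 hpJ with a2 | ⟨q, a2⟩ | a2
      · exfalso
        have hval : H.Val J (fun a => if a = j ∨ a = p then !(s a) else s a) := by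
          have key : ∀ b' u w, H.Q J b' u w → (u = j ∨ u = p) → b' = D := by
            intro b' u w hQ hu
            unfold P Q at *; grind
          intro b' u w hQ
          have hsu := hs _ _ _ hQ
          by_cases hu : u = j ∨ u = p
          · have e1 := key b' u w hQ hu
            subst e1
            have hw : w = j ∨ w = p := by
              unfold Q at *; grind
            simp only [hu, hw, if_true]
            revert hsu
            cases s u <;> cases s w <;> simp
          · by_cases hw : w = j ∨ w = p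
            · exfalso
              have e1 := key b' w u hQ.symm hw
              subst e1
              unfold Q at *; grind
            · simp only [hu, hw, if_false]
              exact hsu
        have e2 := hoppA _ hval
        have hk2 : ¬ (k = j ∨ k = p) := by
          rintro (h | h)
          · exact hne h.symm
          · exact hpk h.symm
        simp only [true_or, if_true, hk2, if_false] at e2
        revert hopp e2
        cases s j <;> cases s k <;> simp
      · exact ⟨X2, X1, q, h2, h1, h3.symm, a2, a1, fun r hr => by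
          rcases hpall r hr with h | h | h
          · exact Or.inl h
          · exact Or.inr (Or.inr h)
          · exact Or.inr (Or.inl h)⟩
      · exact absurd a2 (hntp X2 (mem_bl.2 hX2))
    · rcases tr_cases_mem hX2 hpJ with a2 | ⟨q', a2⟩ | a2
      · exact ⟨X1, X2, q, h1, h2, h3, a1, a2, hpall⟩
      · exfalso
        obtain ⟨f, hf⟩ := F0 hO hpJ
        rcases hpall f hf.1 with h | h | h
        · subst h
          exact hLD.1 (hf.2.2 j hLD.2.1 hLD.2.2.2.1)
        · subst h
          exact a1.1 (hf.2.2 q a1.2.2.1 a1.2.2.2.2.1).symm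
        · subst h
          exact a2.1 (hf.2.2 q' a2.2.2.1 a2.2.2.2.2.1).symm
      · exact absurd a2 (hntp X2 (mem_bl.2 hX2))
    · exact absurd a1 (hntp X1 (mem_bl.2 hX1))
  have hqj : q ≠ j := by
    rintro rfl
    unfold P Q at *; grind
  have hqk : q ≠ k := by
    rintro rfl
    have e1 := hs _ _ _ hLD
    have e2 := hs _ _ _ hQ'
    revert e1 e2 hopp
    cases s j <;> cases s p <;> cases s q <;> simp
  have hEx : Ex H J {v} {p} {G} {T} (fun a => if a = v then s j else if a = j then !(s j) else s a) := by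
    refine ⟨by simpa using hnJ, by simp [hpJ], ?_, ?_, ?_, ?_⟩
    · unfold U P Q at *; grind
    · have h5 := hc_s (H := H) (J := J) (X := {v}) (Y := {p}) (s := s) (s' := s) hs (by simpa using hntp)
        (by simpa using hnJ) (by simp)
      intro b' u w hne' hu hw huJ hwJ huY hwY hr
      have h6 := h5 b' u w hne' hu hw huJ hwJ huY hwY hr
      have hjn : ∀ w, w ∈ J → w ∉ ({p} : Finset A) → j ≠ w → j ∈ H.pt b' → w ∉ H.pt b' := by
        intro w hwJ hwp hjw hj hw
        unfold P Q at *; grind
      have hu1 : u ≠ j := by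
        rintro rfl
        exact hjn w hwJ hwY hne' hu hw
      have hw1 : w ≠ j := by
        rintro rfl
        exact hjn u huJ huY hne'.symm hw hu
      have hu2 : u ≠ v := fun h => hnJ (h ▸ huJ)
      have hw2 : w ≠ v := fun h => hnJ (h ▸ hwJ)
      simp only [hu1, hw1, hu2, hw2, if_false]
      exact h6
    · unfold U P Q at *; grind
    · unfold U at *; grind
  obtain ⟨g0, g1, g2, g3, g4⟩ := hEx.res hI
  simp only [Finset.card_singleton] at g3 g4
  refine ⟨D', G, q, hDD', hQ', hG, hqj, hqk, hpk, hO.opt g1 (by omega) (n3_le g2) (by omega), ?_⟩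
  have hvG : v ∉ H.pt G := by
    unfold U P Q at *; grind
  constructor
  · exact hG.1
  · exact hLD.2.2.1
  · exact hQ'.2.1
  · exact hDD'
  · unfold U P Q at *; grind
  · unfold U P Q at *; grind
  · unfold U P Q at *; grind

end Pool.Agent.Helper83.Inj
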